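import Pool.Agent.H459R3.Final
import Pool.Agent.Results.MP_61c8ab_an.CotypeTwo

/-!
`MP_28cf54_an`: with high probability the space normed by the Gaussian polytope
`P_{N,n} = conv {± X_i}` has cotype `2 + ε`, in fact cotype `2`, with a universal constant, for all
`N ≥ n`.
-/

set_option autoImplicit false

open MeasureTheory ProbabilityTheory

namespace Pool.Agent.Results.MP_28cf54_an.CotypeNearTwo

/-- The law of `N` independent standard Gaussian vectors `X_1, …, X_N` in `ℝ^n`. -/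
noncomputable def gaussLaw (N n : ℕ) : Measure (Fin N → Fin n → ℝ) :=
  Measure.pi fun _ : Fin N => Measure.pi fun _ : Fin n => gaussianReal 0 1

/-- The symmetric polytope `conv {± X_i : i ≤ N}`. -/
def poly {N n : ℕ} (X : Fin N → Fin n → ℝ) : Set (Fin n → ℝ) :=
  convexHull ℝ {x | ∃ i, x = X i ∨ x = -X i}

/-- The Minkowski functional `‖x‖_P = inf {l > 0 : l⁻¹ x ∈ P}`. -/
noncomputable def mink {n : ℕ} (P : Set (Fin n → ℝ)) (x : Fin n → ℝ) : ℝ :=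
  sInf {l : ℝ | 0 < l ∧ l⁻¹ • x ∈ P}

/-- The function `p` is a norm on `ℝ^n`. -/
def IsNorm {n : ℕ} (p : (Fin n → ℝ) → ℝ) : Prop :=
  (∀ x, p x = 0 ↔ x = 0) ∧ (∀ (r : ℝ) x, p (r • x) = |r| * p x) ∧ ∀ x y, p (x + y) ≤ p x + p y

/-- `(ℝ^n, p)` has cotype `q` with constant `C`:
`E_σ p(∑ σ_i y_i)^q ≥ C^{-q} ∑ p(y_i)^q` for all finite families `y_1, …, y_k`. -/
def HasCotype {n : ℕ} (p : (Fin n → ℝ) → ℝ) (q C : ℝ) : Prop :=
  ∀ (k : ℕ) (y : Fin k → Fin n → ℝ),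
    C ^ (-q) * ∑ i, p (y i) ^ q ≤
      (1 / (2 : ℝ) ^ k) * ∑ σ : Fin k → Bool, p (∑ i, (if σ i then (1 : ℝ) else -1) • y i) ^ q

lemma mink_eq_gauge {n : ℕ} (P : Set (Fin n → ℝ)) (x : Fin n → ℝ) : mink P x = gauge P x := by
  rw [gauge_def']
  rfl

lemma poly_eq {N n : ℕ} (X : Fin N → Fin n → ℝ) :
    poly X = convexHull ℝ (Set.range X ∪ Set.range (-X)) := by
  unfold poly
  congr 1
  ext x
  constructor
  · rintro ⟨i, h | h⟩
    · exact Or.inl ⟨i, h.symm⟩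
    · exact Or.inr ⟨i, by rw [h]; rfl⟩
  · rintro (⟨i, h⟩ | ⟨i, h⟩)
    · exact ⟨i, Or.inl h.symm⟩
    · exact ⟨i, Or.inr (by rw [← h]; rfl)⟩

lemma mink_poly {N n : ℕ} (hN : 0 < N) {X : Fin N → Fin n → ℝ}
    (hX : MP_61c8ab_an.CotypeTwo.Spans X) :
    mink (poly X) = MP_61c8ab_an.CotypeTwo.qnorm X := by
  funext x
  rw [mink_eq_gauge, poly_eq, H459R3.gauge_eq hN hX]
  rfl

lemma cotype_of_L1 {n : ℕ} {p : (Fin n → ℝ) → ℝ} (hp : ∀ x, 0 ≤ p x) {q C : ℝ} (hq : 2 ≤ q)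
    (hC : 0 < C) (h : MP_61c8ab_an.CotypeTwo.HasCotype p q C) : HasCotype p q C := by
  intro k y
  have h1 := h k y
  have hq0 : 0 < q := by linarith
  set S := ∑ i, p (y i) ^ q with hS
  have hS0 : 0 ≤ S := Finset.sum_nonneg fun i _ => Real.rpow_nonneg (hp _) _
  set F : (Fin k → Bool) → ℝ := fun σ => p (∑ i, (if σ i then (1 : ℝ) else -1) • y i) with hF
  have hF0 : ∀ σ, 0 ≤ F σ := fun σ => hp _
  -- Jensen
  have h2 : ((1 / (2 : ℝ) ^ k) * ∑ σ : Fin k → Bool, F σ) ^ q ≤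
      (1 / (2 : ℝ) ^ k) * ∑ σ : Fin k → Bool, F σ ^ q := by
    have hw : ∑ _σ : Fin k → Bool, (1 / (2 : ℝ) ^ k) = 1 := by
      rw [Finset.sum_const, Finset.card_univ, Fintype.card_fun, Fintype.card_bool,
        Fintype.card_fin, nsmul_eq_mul]
      push_cast
      field_simp
    have := Real.rpow_arith_mean_le_arith_mean_rpow Finset.univ
      (fun _ : Fin k → Bool => (1 / (2 : ℝ) ^ k)) F (fun _ _ => by positivity) hw
      (fun σ _ => hF0 σ) (by linarith : 1 ≤ q)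
    rw [Finset.mul_sum, Finset.mul_sum]
    exact this
  have h3 : S ≤ C ^ q * ((1 / (2 : ℝ) ^ k) * ∑ σ : Fin k → Bool, F σ) ^ q := by
    have hA : 0 ≤ (1 / (2 : ℝ) ^ k) * ∑ σ : Fin k → Bool, F σ :=
      mul_nonneg (by positivity) (Finset.sum_nonneg fun σ _ => hF0 σ)
    rw [← Real.mul_rpow hC.le hA]
    calc S = (S ^ (1 / q)) ^ q := by
          rw [← Real.rpow_mul hS0, one_div_mul_cancel hq0.ne', Real.rpow_one]
      _ ≤ _ := Real.rpow_le_rpow (Real.rpow_nonneg hS0 _) h1 hq0.le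
  have hCq : 0 < C ^ q := Real.rpow_pos_of_pos hC _
  rw [Real.rpow_neg hC.le]
  calc (C ^ q)⁻¹ * S ≤ (C ^ q)⁻¹ * (C ^ q * ((1 / (2 : ℝ) ^ k) * ∑ σ : Fin k → Bool, F σ) ^ q) :=
        mul_le_mul_of_nonneg_left h3 (by positivity)
    _ = ((1 / (2 : ℝ) ^ k) * ∑ σ : Fin k → Bool, F σ) ^ q := by field_simp
    _ ≤ _ := h2

/-- **Gaussian polytopes have cotype `2 + ε`, indeed cotype `2`, with a universal constant.**
There is a universal constant `C` such that for all `1 ≤ n ≤ N`, outside an event of probability at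
most `4 exp (-n)`, the Minkowski functional of `P_{N,n} = conv {± X_i : i ≤ N}` is a norm on `ℝ^n`
which has cotype `q` with constant `C` for every `q ≥ 2`. -/
theorem result : ∃ C : ℝ, 0 < C ∧ ∀ n N : ℕ, 0 < n → n ≤ N →
    gaussLaw N n {X | ¬ (IsNorm (mink (poly X)) ∧
      ∀ q : ℝ, 2 ≤ q → HasCotype (mink (poly X)) q C)} ≤ ENNReal.ofReal (4 * Real.exp (-n)) := by
  obtain ⟨C, hC, h⟩ := Pool.Agent.Results.MP_61c8ab_an.CotypeTwo.result
  refine ⟨C, hC, fun n N hn hnN => ?_⟩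
  refine le_trans (measure_mono ?_) (h n N hn hnN)
  intro X hX hgood
  apply hX
  obtain ⟨h1, h2, h3⟩ := hgood
  have hN : 0 < N := lt_of_lt_of_le hn hnN
  rw [mink_poly hN h1]
  refine ⟨h2, fun q hq => cotype_of_L1 (fun x => H459R3.xn_nonneg X x) hq hC (h3 q hq)⟩

end Pool.Agent.Results.MP_28cf54_an.CotypeNearTwo
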